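import Pool.Agent.helper19.QP.SpecV
import Pool.Agent.helper7.IG.Basic
import Pool.Agent.helper15.IG.MA
import Pool.Agent.helper15.IG.MB1
import Pool.Agent.helper92.IG.MB2
import Pool.Agent.helper43.IG.MB3
import Pool.Agent.helper31.IG.F1
import Pool.Agent.helper41.IG.PSI

set_option autoImplicit false

open Finset

noncomputable section

namespace Pool.Agent.QP

open Pool.Agent.helper7.IG (kk LL sig DDk MM im2 ps Vx Nb Frame)
open Pool.Agent.LQ (FF DD)

lemma PNB_psi : Pool.Agent.helper7.IG.PSI_stmt :=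
  Pool.Agent.helper7.IG.PSI_of Pool.Agent.helper7.IG.MA Pool.Agent.helper7.IG.MB1
    Pool.Agent.helper7.IG.MB2 (Pool.Agent.helper7.IG.MB3_of Pool.Agent.helper7.IG.MA)
    Pool.Agent.helper7.IG.F1

/-- the value of the polynomial `Ψ` at `(b, x)` -/
def PNB_E (Ψ : Polynomial (Polynomial kk)) (n : ℕ) (b x : LL) : LL :=
  ∑ i ∈ range (n + 1), Polynomial.aeval b (Ψ.coeff i) * x ^ i

lemma PNB_E_eval (Ψ : Polynomial (Polynomial kk)) (hm : Ψ.Monic) (n : ℕ) (hn : Ψ.natDegree = n) (b x : LL) :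
    (Ψ.map (Polynomial.aeval (R := kk) b).toRingHom).eval x = PNB_E Ψ n b x := by
  rw [Polynomial.eval_eq_sum_range, hm.natDegree_map, hn]
  unfold PNB_E
  refine Finset.sum_congr rfl fun i _ => ?_
  rw [Polynomial.coeff_map]
  rfl

lemma PNB_E_sig (Ψ : Polynomial (Polynomial kk)) (n : ℕ) (b x : LL) (e : ℕ) (η : kkˣ) :
    sig e η (PNB_E Ψ n b x) = PNB_E Ψ n (sig e η b) (sig e η x) := by
  unfold PNB_E
  rw [map_sum]
  refine Finset.sum_congr rfl fun i _ => ?_
  rw [map_mul, map_pow]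
  congr 1
  exact (Polynomial.aeval_algHom_apply (sig e η) b (Ψ.coeff i)).symm

lemma PNB_coeff (V : ValuationSubring LL) (hV : ∀ c : kk, algebraMap kk LL c ∈ V) (b : LL)
    (h : V.ValueGroup) (hb : V.valuation b ≤ h) (h1 : 1 ≤ h) (P : Polynomial kk) (n : ℕ)
    (hn : P.natDegree ≤ n) : V.valuation (Polynomial.aeval b P) ≤ h ^ n := by
  rw [Polynomial.aeval_eq_sum_range]
  apply Valuation.map_sum_le
  intro i hi
  rw [Algebra.smul_def, map_mul, map_pow]
  have h2 : V.valuation (algebraMap kk LL (P.coeff i)) ≤ 1 := (V.valuation_le_one_iff _).mpr (hV _)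
  have hi' : i ≤ n := by
    have := Finset.mem_range.mp hi
    omega
  calc V.valuation (algebraMap kk LL (P.coeff i)) * V.valuation b ^ i
      ≤ 1 * h ^ i := mul_le_mul' h2 (pow_le_pow_left₀ zero_le' hb i)
    _ = h ^ i := one_mul _
    _ ≤ h ^ n := pow_le_pow_right₀ h1 hi'

lemma PNB_val (V : ValuationSubring LL) (hV : ∀ c : kk, algebraMap kk LL c ∈ V) (b x : LL)
    (Ψ : Polynomial (Polynomial kk)) (hm : Ψ.Monic) (p : ℕ) (hn : Ψ.natDegree = p + 1)
    (hd : ∀ i, (Ψ.coeff i).natDegree ≤ p + 1 - i) (hE : PNB_E Ψ (p + 1) b x = 0) :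
    V.valuation x ≤ max (V.valuation b) 1 := by
  by_contra hcon
  push Not at hcon
  set h := max (V.valuation b) 1 with hh
  have h1 : 1 ≤ h := le_max_right _ _
  have hb : V.valuation b ≤ h := le_max_left _ _
  have hx0 : 0 < V.valuation x := lt_of_le_of_lt zero_le' hcon
  have hlc : Ψ.coeff (p + 1) = 1 := by
    rw [← hn]
    exact hm.coeff_natDegree
  unfold PNB_E at hE
  rw [Finset.sum_range_succ, hlc, map_one, one_mul] at hE
  have hx : x ^ (p + 1) = -∑ i ∈ range (p + 1), Polynomial.aeval b (Ψ.coeff i) * x ^ i := by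
    rw [eq_neg_iff_add_eq_zero, add_comm]
    exact hE
  have hlt : V.valuation (∑ i ∈ range (p + 1), Polynomial.aeval b (Ψ.coeff i) * x ^ i) <
      V.valuation x ^ (p + 1) := by
    apply Valuation.map_sum_lt
    · exact pow_ne_zero _ hx0.ne'
    · intro i hi
      have hi' : i < p + 1 := Finset.mem_range.mp hi
      rw [map_mul, map_pow]
      have h2 : V.valuation (Polynomial.aeval b (Ψ.coeff i)) < V.valuation x ^ (p + 1 - i) := by
        refine lt_of_le_of_lt (PNB_coeff V hV b h hb h1 _ _ (hd i)) ?_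
        exact pow_lt_pow_left₀ hcon zero_le' (by omega)
      calc V.valuation (Polynomial.aeval b (Ψ.coeff i)) * V.valuation x ^ i
          < V.valuation x ^ (p + 1 - i) * V.valuation x ^ i :=
            mul_lt_mul_of_pos_right h2 (pow_pos hx0 i)
        _ = V.valuation x ^ (p + 1) := by
            rw [← pow_add]
            congr 1
            omega
  have := congrArg V.valuation hx
  rw [Valuation.map_neg, map_pow] at this
  rw [← this] at hlt
  exact lt_irrefl _ hlt

theorem PNB : PNB_stmt := by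
  intro V hV p v u hp hp2 hv hu hNb
  obtain ⟨Ψ, hm, hn, hd, hΨ⟩ := PNB_psi p hp hp2
  obtain ⟨ω, hω⟩ := Pool.Agent.helper7.IG.exists_primitive p (hp.odd_of_ne_two hp2)
  have hfac := hΨ ω hω
  have key : PNB_E Ψ (p + 1) (sig v.1 v.2 DDk) (sig u.1 u.2 DDk) = 0 := by
    rcases hNb with ⟨h1, h2⟩ | ⟨h1, h2⟩
    · -- up
      have e1 : PNB_E Ψ (p + 1) (sig p 1 DDk) (sig (p * p) 1 DDk) = 0 := by
        rw [← PNB_E_eval Ψ hm (p + 1) hn, hfac, Polynomial.eval_mul, Polynomial.eval_sub,
          Polynomial.eval_X, Polynomial.eval_C, sub_self, zero_mul]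
      have e2 : sig (p * p) 1 DDk = sig p 1 (sig p 1 DDk) := by
        rw [Pool.Agent.helper7.IG.sig_sig hp.ne_zero hp.ne_zero, one_pow, mul_one]
      rw [e2, ← PNB_E_sig] at e1
      have e3 : PNB_E Ψ (p + 1) DDk (sig p 1 DDk) = 0 :=
        Pool.Agent.helper7.IG.sig_injective p 1 (by rw [e1, map_zero])
      have e4 := congrArg (sig v.1 v.2) e3
      rw [PNB_E_sig, map_zero, Pool.Agent.helper7.IG.sig_sig hv hp.ne_zero, one_mul] at e4
      rw [h1, h2, mul_comm p v.1]
      exact e4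
    · -- down
      have e1 : PNB_E Ψ (p + 1) (sig p 1 DDk) DDk = 0 := by
        rw [← PNB_E_eval Ψ hm (p + 1) hn, hfac, Polynomial.eval_mul, Polynomial.eval_prod,
          Finset.prod_eq_zero (Finset.mem_range.mpr hp.pos), mul_zero]
        rw [Polynomial.eval_sub, Polynomial.eval_X, Polynomial.eval_C, pow_zero,
          Pool.Agent.helper7.IG.sig_one, sub_self]
      have e4 := congrArg (sig u.1 u.2) e1
      rw [PNB_E_sig, map_zero, Pool.Agent.helper7.IG.sig_sig hu hp.ne_zero, one_mul] at e4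
      rw [h1, ← h2, mul_comm p u.1]
      exact e4
  exact PNB_val V hV _ _ Ψ hm p hn hd key

end Pool.Agent.QP
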