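import Pool.Agent.helper30.QP.SpecC

set_option autoImplicit false

open Polynomial Pool.Agent.helper7.IG

noncomputable section

namespace Pool.Agent.QP

/-- the exponents of `PN N F` are divisible by `l` -/
lemma ONE_supp {N l : ℕ} {F : LL} (hl : l.Prime) (h : PN (l * N) F = 0) (n : ℤ)
    (hn : (PN N F).coeff n ≠ 0) : (l : ℤ) ∣ n := by
  by_contra hd
  apply hn
  rw [PN_coeff]
  split_ifs with hg
  · have h1 : Int.gcd n ((l * N : ℕ) : ℤ) = 1 := by
      have h2 : Int.gcd n (l : ℤ) = 1 := by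
        rw [← Int.isCoprime_iff_gcd_eq_one]
        exact ((Nat.prime_iff_prime_int.mp hl).coprime_iff_not_dvd.mpr hd).symm
      rw [← Int.isCoprime_iff_gcd_eq_one] at h2 hg ⊢
      push_cast
      exact h2.mul_right hg
    have h3 := PN_coeff (l * N) F n
    rw [if_pos h1, h] at h3
    rw [← h3]
    rfl
  · rfl

lemma ONE_twist {l : ℕ} {ψ : LL} (hψ : ∀ n : ℤ, ψ.coeff n ≠ 0 → (l : ℤ) ∣ n) (η : kkˣ) (hη : η ^ l = 1) :
    sig 1 η ψ = ψ := by
  ext n
  rw [sig_coeff one_ne_zero]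
  rw [if_pos (by simp)]
  have h1 : n / ((1 : ℕ) : ℤ) = n := by simp
  rw [h1]
  by_cases h0 : ψ.coeff n = 0
  · rw [h0, mul_zero]
  · obtain ⟨m, rfl⟩ := hψ n h0
    rw [zpow_mul, zpow_natCast, hη, one_zpow, Units.val_one, one_mul]

lemma ONE_twist' {l : ℕ} {ψ : LL} (hψ : ∀ n : ℤ, ψ.coeff n ≠ 0 → (l : ℤ) ∣ n) (e : ℕ) (he : e ≠ 0)
    (η : kkˣ) (hη : η ^ l = 1) : sig e η ψ = sig e 1 ψ := by
  have h := sig_sig he one_ne_zero 1 η ψ
  rw [ONE_twist hψ η hη, mul_one, one_pow, mul_one] at h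
  exact h.symm

theorem ONE (hPNA : PNA_stmt) (hPMM : PMM_stmt) (hHEX : HEX_stmt) (hHPN : HPN_stmt) (hDSC : DSC_stmt)
    (hFR : FR_stmt) (hDI : DI_stmt) (hNB : NB_stmt) (hME : ME_stmt) : ONE_stmt := by
  intro F N l hF hN hsq hl hl2 hl3 hcop hzero
  set ψ := PN N F with hψdef
  have hψM : ψ ∈ MM := hPMM N F hN hsq hF.1
  have hsupp : ∀ n : ℤ, ψ.coeff n ≠ 0 → (l : ℤ) ∣ n := fun n hn => ONE_supp hl hzero n hn
  have hlo : Odd l := hl.odd_of_ne_two hl2
  obtain ⟨ω, hω⟩ := exists_primitive l hlo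
  have hωl : ω ^ l = 1 := hω.pow_eq_one
  have hω1 : ω ≠ 1 := hω.ne_one hl.one_lt
  obtain ⟨B0, hB0, hB⟩ := hHPN F N l hF hN hsq hl hl2 hl3 hcop
  obtain ⟨Φ⟩ := hFR
  set B := B0 * l with hBdef
  have hBo : Odd B := hB0.mul hlo
  have hB00 : B0 ≠ 0 := by rintro rfl; exact absurd hB0 (by decide)
  have hBl : B / l = B0 := Nat.mul_div_cancel _ hl.pos
  obtain ⟨h, hfix, hh⟩ := hHEX Φ B l hBo hl hl2 (Dvd.intro_left _ rfl)
  have hFx : Fx Φ h B l := hfix
  rw [hBl] at hh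
  have hBV : h (Φ.D (B, 1)) = Φ.D (B, 1) := by
    have := hfix 1 1 1 (Nat.coprime_one_left l) (Nat.coprime_one_left l) (by simp) (by simp)
    rw [mul_one] at this
    exact this
  have nb1 : Nb l (B, 1) (l * B, 1) := Or.inl ⟨rfl, (one_pow l).symm⟩
  have nb2 : ∀ η : kkˣ, η ^ l = 1 → Nb l (B, 1) (B0, η) := fun η hη => Or.inr ⟨mul_comm _ _, hη⟩
  have hb := hB Φ h B (l * B, 1) (B0, 1) hBo (Dvd.intro _ rfl) hFx nb1 (nb2 1 (one_pow l)) hh
  simp only at hb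
  -- `h` fixes `a`
  have ha : h (Φ.cl (sig B0 1 ψ)) = Φ.cl (sig B0 1 ψ) := by
    have key : ∀ η : kkˣ, η ^ l = 1 → h (Φ.D (B0, η)) ≠ Φ.D (l * B, 1) →
        h (Φ.cl (sig B0 1 ψ)) = Φ.cl (sig B0 1 ψ) := by
      intro η hη hne
      obtain ⟨u', hu', hu2⟩ := hNB Φ h (B, 1) (B, 1) l hl hl2 hBo hBo (Dvd.intro_left _ rfl)
        (Dvd.intro_left _ rfl) hBV (B0, η) (nb2 η hη)
      have hk := hB Φ h B (B0, η) u' hBo (Dvd.intro _ rfl) hFx (nb2 η hη) hu' hu2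
      simp only at hk
      rcases hu' with ⟨h1, h2⟩ | ⟨h1, h2⟩
      · exfalso
        apply hne
        rw [hu2]
        have : u' = (l * B, 1) := by
          apply Prod.ext
          · exact h1
          · rw [h2]
            exact one_pow l
        rw [this]
      · have h3 : u'.1 = B0 := by
          have h4 : l * u'.1 = l * B0 := by
            rw [← h1]
            exact mul_comm _ _
          exact Nat.eq_of_mul_eq_mul_left hl.pos h4
        rw [h3, ONE_twist' hsupp B0 hB00 η hη, ONE_twist' hsupp B0 hB00 u'.2 h2] at hk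
        exact hk
    by_cases h1 : h (Φ.D (B0, 1)) = Φ.D (l * B, 1)
    · apply key ω hωl
      intro h2
      have h3 : Φ.D (B0, 1) = Φ.D (B0, ω) := h.injective (h1.trans h2.symm)
      have h4 := hDI Φ (B0, 1) (B0, ω) hB0 hB0 h3
      exact hω1 (congrArg Prod.snd h4).symm
    · exact key 1 (one_pow l) h1
  have hab : Φ.cl (sig (l * B) 1 ψ) = Φ.cl (sig B0 1 ψ) := h.injective (hb.trans ha.symm)
  rw [Φ.cl_inj_iff (hME _ _ _ (hlo.mul hBo) hψM) (hME _ _ _ hB0 hψM)] at hab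
  apply hDSC B0 l ψ hB00 hl.two_le
  have : l * B = l * l * B0 := by
    rw [hBdef]
    ring
  rw [← this]
  exact hab

end Pool.Agent.QP
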